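import Pool.Agent.H74.LNR.Final

set_option autoImplicit false

namespace Pool.Agent.Results.MP_3fdd8e_co.PathUniqueMaximiser

open Pool.Agent.H74.LNR

/-- Let `G` be a connected graph on a finite set `V` of vertices and `r` a vertex. There are finitely
many 1-Lipschitz mappings on `G` which vanish at `r`, and at least one; the average number of values
does not depend on `r`; it is at most the one of the path on the same number of vertices; and the two
are equal only if `G` is (isomorphic to) this path. -/
theorem result (V : Type) [Fintype V] (G : SimpleGraph V) (hG : G.Connected) (r : V) :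
    (Maps G r).Finite ∧ (Maps G r).Nonempty ∧ (∀ r' : V, avg G r' = avg G r) ∧
    ∀ s : Fin (Fintype.card V),
      avg G r ≤ avg (SimpleGraph.pathGraph (Fintype.card V)) s ∧
      (avg G r = avg (SimpleGraph.pathGraph (Fintype.card V)) s ↔
        Nonempty (G ≃g SimpleGraph.pathGraph (Fintype.card V))) :=
  final V G hG r

end Pool.Agent.Results.MP_3fdd8e_co.PathUniqueMaximiser
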